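import Pool.Agent.W2helper83.BT.Defs5
import Pool.Agent.W2helper49.BT4.RatB

/-!
# Project BT, fifth part, piece RATH (helper83): the ratios of two periodic points of `c H (x ^ d)`
-/

set_option autoImplicit false

namespace Pool.Agent.W2helper2.BT

open IsDedekindDomain NumberField Polynomial
open Pool.Agent.W2helper83.BT
open Pool.Agent.W2helper73.BT (val_nat)
open Pool.Agent.W2helper49.BT4 (val_one_iff val_gt_iff val_eq_iff)

section val

variable {K L : Type} [Field K] [NumberField K] [Field L] [NumberField L] [Algebra K L]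
  {v : HeightOneSpectrum (𝓞 K)} {w : HeightOneSpectrum (𝓞 L)}

lemma val_lt_iff (h : ∀ x : K, w.valuation L (algebraMap K L x) ≤ 1 ↔ v.valuation K x ≤ 1)
    (z : K) : w.valuation L (algebraMap K L z) < 1 ↔ v.valuation K z < 1 := by
  by_cases hz : z = 0
  · subst hz
    simp
  rw [lt_iff_le_and_ne, lt_iff_le_and_ne, h, Ne, Ne, val_one_iff h hz]

lemma val_one_iff' (h : ∀ x : K, w.valuation L (algebraMap K L x) ≤ 1 ↔ v.valuation K x ≤ 1)
    (z : K) : w.valuation L (algebraMap K L z) = 1 ↔ v.valuation K z = 1 := by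
  by_cases hz : z = 0
  · subst hz
    simp
  exact val_one_iff h hz

end val

/-- **RATH** -/
theorem rath : RATHStm := by
  classical
  intro hPL hA hB d l n hP hn hnd hl K _ _ S hS
  have : NeZero d := ⟨by omega⟩
  let L := CyclotomicField d K
  have : NumberField L := inferInstance
  have hζ := IsCyclotomicExtension.zeta_spec d K L
  set ζ := IsCyclotomicExtension.zeta d K L with hζdef
  obtain ⟨T, hT, hTv⟩ := hPL K L S hS
  have hfin : {w : HeightOneSpectrum (𝓞 L) | ((d : ℤ) : 𝓞 L) ∈ w.asIdeal}.Finite := by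
    have hI : Ideal.span {((d : ℤ) : 𝓞 L)} ≠ ⊥ := by
      rw [Ne, Ideal.span_singleton_eq_bot]
      have : d ≠ 0 := by omega
      exact_mod_cast this
    refine (Ideal.finite_factors hI).subset (fun v hv => ?_)
    exact Ideal.dvd_span_singleton.2 hv
  have hζd := hζ.pow_eq_one
  let r : Fin n → L := fun i => ζ ^ ((i : ℕ) + 1)
  have hr : Function.Injective r := by
    intro i j h
    have h1 := hζ.pow_inj (by omega) (by omega) h
    exact Fin.ext (by omega)
  have hroot : ∀ i, r i ^ d = 1 := by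
    intro i
    show (ζ ^ ((i : ℕ) + 1)) ^ d = 1
    rw [← pow_mul, mul_comm, pow_mul, hζd, one_pow]
  have hne1 : ∀ i, r i ≠ 1 := fun i => hζ.pow_ne_one_of_pos_of_lt (by omega) (by omega)
  have hinj := (algebraMap K L).injective
  have hfin2 := (hP L _ (hfin.union hT) r hr).union (Set.finite_range r)
  refine ⟨_, hfin2.preimage (f := algebraMap K L) hinj.injOn, ?_⟩
  intro c H x y hc hH hC hx hy hxy hy0
  rw [Set.mem_preimage]
  set ρ := algebraMap K L (x / y) with hρ
  set X := algebraMap K L x with hX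
  set Y := algebraMap K L y with hY
  have hY0 : Y ≠ 0 := fun h => hy0 (hinj (by rw [← hY, h, map_zero]))
  have hρ' : ρ = X / Y := by rw [hρ, map_div₀]
  by_cases hin : ∃ i, r i = ρ
  · exact Or.inr hin
  push Not at hin
  left
  refine ⟨fun i h => hin i h.symm, ?_⟩
  intro i j w hw
  have hw1 : w ∉ T := fun h => hw (Or.inr h)
  obtain ⟨v, hvS, hvw⟩ := hTv w hw1
  obtain ⟨hC1, hC2⟩ := hC v hvS
  have hs : ∀ i, ρ - r i ≠ 0 := fun i => sub_ne_zero.2 fun h => hin i h.symm
  have e1 : ∀ i, X - r i * Y = (ρ - r i) * Y := fun i => by rw [hρ', sub_mul, div_mul_cancel₀ _ hY0]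
  have hco : ∀ i, w.valuation L (algebraMap K L (H.coeff i)) ≤ 1 := fun i => (hvw _).2 (hC1 i)
  have hd1 : w.valuation L (d : L) = 1 := val_nat w fun h => hw (Or.inl h)
  rcases le_or_gt (v.valuation K c) 1 with hc1 | hc1
  · have hloc := hB K L _ (w.valuation L) d c H x y (r i) (r j) (by omega) hd1 ⟨ζ, hζ⟩ hc hH hco
      ((hvw c).2 hc1) hx hy hxy (hroot i) (hne1 i) (hroot j) (hne1 j)
      (by rw [← hX, ← hY, e1]; exact mul_ne_zero (hs i) hY0)
      (by rw [← hX, ← hY, e1]; exact mul_ne_zero (hs j) hY0)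
    rw [← hX, ← hY, e1, e1, mul_div_mul_right _ _ hY0] at hloc
    exact ⟨1, one_ne_zero, by rw [hloc, map_one, one_pow]⟩
  obtain ⟨⟨h, hh⟩, hC3⟩ := hC2 hc1
  obtain ⟨k, h3⟩ := hA K L _ (w.valuation L) d c H x y (r i) (r j) (by omega) hd1 ⟨ζ, hζ⟩ hH hco
    ((val_gt_iff hvw c).2 hc1) (fun Z hZ1 hZ2 => by
      obtain ⟨a, b⟩ := hC3 Z ((hvw Z).1 hZ1) ((val_lt_iff hvw _).1 hZ2)
      exact ⟨(val_one_iff' hvw _).2 a, (val_one_iff' hvw _).2 b⟩)
    hx hy hxy (hroot i) (hne1 i) (hroot j) (hne1 j)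
    (by rw [← hX, ← hY, e1]; exact mul_ne_zero (hs i) hY0)
    (by rw [← hX, ← hY, e1]; exact mul_ne_zero (hs j) hY0)
  rw [← hX, ← hY, e1, e1, mul_div_mul_right _ _ hY0] at h3
  have hh0 : h ≠ 0 := by
    intro h0
    rw [h0, map_zero, zero_pow hl.ne'] at hh
    rw [hh] at hc1
    exact absurd hc1 (by simp)
  have h5 : w.valuation L (algebraMap K L c) = w.valuation L (algebraMap K L h) ^ l := by
    rw [← map_pow, ← map_pow]
    rw [← map_pow] at hh
    exact (val_eq_iff hvw hc (pow_ne_zero _ hh0)).2 hh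
  refine ⟨algebraMap K L h ^ k, zpow_ne_zero _ (by rw [Ne, map_eq_zero]; exact hh0), ?_⟩
  rw [h3, h5, map_zpow₀, ← zpow_natCast, ← zpow_natCast, ← zpow_mul, ← zpow_mul, mul_comm]

end Pool.Agent.W2helper2.BT
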